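import Pool.Agent.H26.Lib.R_pool_sql_team_seeded_3997aac3.Q5.RY.Down

/-! Rigid fields suffice for the regulators and the values. -/

set_option autoImplicit false
set_option linter.unusedSectionVars false

namespace Pool.Agent.Q5.RY

open Module NumberField IsDedekindDomain Polynomial Pool.Agent.W353.NF Pool.Agent.W401.Cheb
open Pool.Agent.Q5.BR Pool.Agent.Q5.RG Pool.Agent.Q5.VL
open Pool.Agent.Q5.RF (Rigid)
open scoped Classical

section
variable {K : Type} [Field K] [NumberField K] {M : Datum ℚ ℝ (GK K)}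

/-- the regulator over a subfield -/
theorem reg_sub_any (hM : GoodM M) {F F' : Type} [Field F] [NumberField F] [Algebra K F] [Field F']
    [NumberField F'] [Algebra K F'] [Algebra F F'] [IsScalarTower K F F']
    (h : ∃ c, Reg M F' c) : ∃ c, Reg M F c := by
  obtain ⟨c, i', hc⟩ := h
  let i : F →ₐ[K] AlgebraicClosure K := i'.comp (IsScalarTower.toAlgHom K F F')
  have hle : stabE i' ≤ stabE i := fun σ hσ x => hσ (algebraMap F F' x)
  have hfd : FiniteDimensional K F' := inferInstance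
  have hfi : (stabE i').FiniteIndex := finiteIndex _
  have hfi' : ((stabE i').subgroupOf (stabE i)).FiniteIndex := inferInstance
  have := Fintype.ofFinite (stabE i ⧸ (stabE i').subgroupOf (stabE i))
  obtain ⟨c', hc'⟩ := reg_down hM.indep hle (hM.good F' i') (hM.good F i) hc
  exact ⟨c', i, hc'⟩

/-- a rigid field above -/
theorem exists_rigid_above (F : Type) [Field F] [NumberField F] [Algebra K F] :
    ∃ (Y : Type) (_ : Field Y) (_ : NumberField Y) (_ : Algebra K Y) (_ : Algebra F Y)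
      (_ : IsScalarTower K F Y), Rigid Y := by
  obtain ⟨p, hp1, hp⟩ := Nat.exists_infinite_primes (finrank ℚ F + 2)
  have hpf : Fact p.Prime := ⟨hp⟩
  obtain ⟨ι, _, Y, nn, hdeg, hrig, hrel⟩ := RF.exists_rigid_relation F p (by omega)
  have hne : Nonempty ι := by
    by_contra h
    rw [not_nonempty_iff] at h
    have h1 := hrel 1
    rw [Finset.univ_eq_empty, Finset.sum_empty] at h1
    exact hp.ne_zero (by exact_mod_cast h1.symm)
  obtain ⟨j⟩ := hne
  let _ : Algebra K (Y j).F := ((algebraMap F (Y j).F).comp (algebraMap K F)).toAlgebra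
  exact ⟨(Y j).F, inferInstance, inferInstance, inferInstance, inferInstance,
    IsScalarTower.of_algebraMap_eq fun x => rfl, hrig j⟩

variable {n : ℕ} {X : Set (MvPolynomial (Fin n) (𝓞 K))} {d i N : ℕ} {m : ℤ} {Ω : Set ℂ}

theorem law_of_rigid (hM : GoodM M) {D : Set ℕ} (hD : ∀ d ∈ D, ∀ n : ℕ, 0 < n → d * n ∈ D)
    (h : ∀ (F : Type) [Field F] [NumberField F] [Algebra K F], Rigid F → finrank K F ∈ D →
      ConjQ X d i N m M Ω F)
    (F : Type) [Field F] [NumberField F] [Algebra K F] (hr : Rigid F) (hF : finrank K F ∈ D) :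
    LawQ X d i N m M Ω F 1 := by
  refine law_of_conjQ (h F hr hF) fun F' _ _ _ _ _ => ?_
  obtain ⟨Y, _, _, _, _, _, hY⟩ := exists_rigid_above (K := K) F'
  refine reg_sub_any hM (F' := Y) (h Y hY ?_).1
  have h1 : FiniteDimensional F F' := by
    have : IsScalarTower ℚ F F' := inferInstance
    exact FiniteDimensional.right ℚ F F'
  have h2 : FiniteDimensional F' Y := by
    have : IsScalarTower ℚ F' Y := inferInstance
    exact FiniteDimensional.right ℚ F' Y
  rw [← finrank_mul_finrank K F' Y, ← finrank_mul_finrank K F F']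
  exact hD _ (hD _ hF _ finrank_pos) _ finrank_pos

/-- **The rigid fields.** -/
theorem conjQ_rigid (hi : i ≤ 2 * d) (hΩ : IsDom Ω (m : ℂ)) (hM : GoodM M)
    (hsys : ∀ (F : Type) [Field F] [NumberField F] [Algebra K F], ∃ B, Sys X d i N m F B)
    {D : Set ℕ} (hD : ∀ d ∈ D, ∀ n : ℕ, 0 < n → d * n ∈ D)
    (hD' : ∀ g : ℕ, (∀ d ∈ D, g ∣ d) → g = 1)
    (h : ∀ (F : Type) [Field F] [NumberField F] [Algebra K F], Rigid F → finrank K F ∈ D →
      ConjQ X d i N m M Ω F)
    (F : Type) [Field F] [NumberField F] [Algebra K F] : ConjQ X d i N m M Ω F :=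
  conjQ_of_law (RF.gen_rigid_law (K := K) (lawQ_isLaw hi hΩ hM hsys) hD hD'
    (fun F' _ _ _ hr hF' => law_of_rigid hM hD h F' hr hF') F)

/-- **The power law for the rigid fields.** -/
theorem conjQ_rigid_power (hi : i ≤ 2 * d) (hΩ : IsDom Ω (m : ℂ)) (hM : GoodM M)
    (hsys : ∀ (F : Type) [Field F] [NumberField F] [Algebra K F], ∃ B, Sys X d i N m F B) {D : ℕ}
    (h : ∀ (F : Type) [Field F] [NumberField F] [Algebra K F], Rigid F → D ∣ finrank K F →
      ConjQ X d i N m M Ω F)
    (F : Type) [Field F] [NumberField F] [Algebra K F] (hD : D ≠ 0) :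
    (∃ c, Reg M F c) ∧ ∀ B : HeightOneSpectrum (𝓞 F) → ℚ[X], Sys X d i N m F B →
      PowL m M Ω F B ((D / D.gcd (finrank K F) : ℕ) : ℤ) := by
  have h2 := RF.gen_rigid_power_law (K := K) (M := D) (lawQ_isLaw hi hΩ hM hsys) (by
    intro F' _ _ _ hr hF'
    exact law_of_rigid (D := {k | D ∣ k}) hM (fun d hd n _ => Dvd.dvd.mul_right hd n) h F' hr hF') F
  refine ⟨h2.1 ?_ F, h2.2⟩
  have h3 : 0 < D / D.gcd (finrank K F) :=
    Nat.div_pos (Nat.gcd_le_left _ (Nat.pos_of_ne_zero hD))
      (Nat.gcd_pos_of_pos_left _ (Nat.pos_of_ne_zero hD))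
  exact_mod_cast h3.ne'

end

end Pool.Agent.Q5.RY
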