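import Pool.Agent.H26.Lib.R_pool_sql_team_seeded_3997aac3.Q5.RG.Asc4
import Pool.Agent.H26.Lib.R_pool_sql_team_seeded_3997aac3.Q5.RF.Law

/-! The regulator over an arbitrary subfield. -/

set_option autoImplicit false
set_option linter.unusedSectionVars false

namespace Pool.Agent.Q5.RY

open Module Pool.Agent.Q5.RG
open scoped Classical

section avg
variable {F0 Γ W : Type} [Field F0] [CharZero F0] [Group Γ] [AddCommGroup W] [Module F0 W]
  (ρ : Representation F0 Γ W) (Δ' Δ : Subgroup Γ) [Fintype (Δ ⧸ Δ'.subgroupOf Δ)]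

/-- the average over the cosets -/
noncomputable def avg : W →ₗ[F0] W :=
  ((Fintype.card (Δ ⧸ Δ'.subgroupOf Δ) : ℕ) : F0)⁻¹ •
    ∑ q : Δ ⧸ Δ'.subgroupOf Δ, ρ ((q.out : Δ) : Γ)

theorem avg_apply (w : W) : avg ρ Δ' Δ w =
    ((Fintype.card (Δ ⧸ Δ'.subgroupOf Δ) : ℕ) : F0)⁻¹ •
      ∑ q : Δ ⧸ Δ'.subgroupOf Δ, ρ ((q.out : Δ) : Γ) w := by
  unfold avg
  rw [LinearMap.smul_apply, LinearMap.sum_apply]

theorem card_ne : ((Fintype.card (Δ ⧸ Δ'.subgroupOf Δ) : ℕ) : F0) ≠ 0 := by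
  have h : 0 < Fintype.card (Δ ⧸ Δ'.subgroupOf Δ) := Fintype.card_pos_iff.2 ⟨(1 : Δ)⟩
  exact_mod_cast h.ne'

theorem avg_mem {w : W} (hw : w ∈ inv ρ Δ') : avg ρ Δ' Δ w ∈ inv ρ Δ := by
  intro g hg
  rw [avg_apply, map_smul, map_sum]
  congr 1
  let e : (Δ ⧸ Δ'.subgroupOf Δ) ≃ (Δ ⧸ Δ'.subgroupOf Δ) := MulAction.toPerm (⟨g, hg⟩ : Δ)
  have h0 : ∑ q : Δ ⧸ Δ'.subgroupOf Δ, ρ ((q.out : Δ) : Γ) w =
      ∑ q : Δ ⧸ Δ'.subgroupOf Δ, ρ (((e q).out : Δ) : Γ) w :=
    (Equiv.sum_comp e fun q => ρ ((q.out : Δ) : Γ) w).symm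
  rw [h0]
  refine Finset.sum_congr rfl fun q _ => ?_
  have h1 : ((⟨g, hg⟩ : Δ) * q.out)⁻¹ * (e q).out ∈ Δ'.subgroupOf Δ := by
    rw [← QuotientGroup.eq]
    have h2 : (((⟨g, hg⟩ : Δ) * q.out : Δ) : Δ ⧸ Δ'.subgroupOf Δ) = (⟨g, hg⟩ : Δ) • q := by
      conv_rhs => rw [← QuotientGroup.out_eq' q]
      rfl
    rw [h2, QuotientGroup.out_eq']
    rfl
  have h3 : (((e q).out : Δ) : Γ) = g * ((q.out : Δ) : Γ) *
      ((((⟨g, hg⟩ : Δ) * q.out)⁻¹ * (e q).out : Δ) : Γ) := by
    push_cast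
    group
  have h4 : ρ ((((⟨g, hg⟩ : Δ) * q.out)⁻¹ * (e q).out : Δ) : Γ) w = w := hw _ h1
  rw [h3, map_mul, Module.End.mul_apply, h4, map_mul, Module.End.mul_apply]

theorem avg_eq {w : W} (hw : w ∈ inv ρ Δ) : avg ρ Δ' Δ w = w := by
  rw [avg_apply]
  have h1 : ∑ q : Δ ⧸ Δ'.subgroupOf Δ, ρ ((q.out : Δ) : Γ) w =
      ((Fintype.card (Δ ⧸ Δ'.subgroupOf Δ) : ℕ) : F0) • w := by
    rw [Finset.sum_congr rfl fun q _ => hw _ (q.out : Δ).2, Finset.sum_const, Finset.card_univ,
      ← Nat.cast_smul_eq_nsmul F0]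
  rw [h1, smul_smul, inv_mul_cancel₀ (card_ne Δ' Δ), one_smul]

end avg

section
variable {k R Γ : Type} [Field k] [CharZero k] [Field R] [Algebra k R] [Group Γ] {M : Datum k R Γ}
  {Δ' Δ : Subgroup Γ} [Fintype (Δ ⧸ Δ'.subgroupOf Δ)]

theorem avg_map [CharZero R] {V U : Type} [AddCommGroup V] [Module k V] [AddCommGroup U]
    [Module R U] {ρV : Representation k Γ V} {ρU : Representation R Γ U}
    {θ : V →ₛₗ[algebraMap k R] U} (hθ : ∀ g v, θ (ρV g v) = ρU g (θ v)) (v : V) :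
    θ (avg ρV Δ' Δ v) = avg ρU Δ' Δ (θ v) := by
  rw [avg_apply, avg_apply, LinearMap.map_smulₛₗ, map_sum, map_inv₀, map_natCast]
  congr 1
  exact Finset.sum_congr rfl fun q _ => hθ _ _

theorem avg_r [CharZero R] {u : M.U} {v : M.V} (h : M.S.mkQ u = M.r v) :
    M.S.mkQ (avg M.ρU Δ' Δ u) = M.r (avg M.ρV Δ' Δ v) := by
  rw [avg_apply, avg_apply, map_smul, map_sum, LinearMap.map_smulₛₗ, map_sum, map_inv₀, map_natCast]
  congr 1
  exact Finset.sum_congr rfl fun q _ => M.hr _ _ _ h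

/-- the end of the argument -/
theorem reg_of_basis (hB : IndepB M) {Δ₀ : Subgroup Γ} (g0 : GoodAt M Δ₀) {P Q : ℕ}
    (a₀ : Basis (Fin P) k (inv M.ρV Δ₀)) (f₀ : Basis (Fin Q) k (inv M.ρΦ Δ₀)) (y : Fin P → M.U)
    (hy : ∀ l, y l ∈ inv M.ρU Δ₀) (hy' : ∀ l, M.S.mkQ (y l) = M.r (a₀ l))
    (hspan : ∀ u ∈ inv M.ρU Δ₀, u ∈ Submodule.span R
      (Set.range (Sum.elim y fun l => M.φ (f₀ l : M.Φ))))
    (hz : LinearIndependent R (Sum.elim y fun l => M.φ (f₀ l : M.Φ))) :
    ∃ c, IsReg M Δ₀ c := by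
  have hfB0 := g0.fin
  set z : Fin P ⊕ Fin Q → M.U := Sum.elim y fun l => M.φ (f₀ l) with hzdef
  have hzm : ∀ m, z m ∈ inv M.ρU Δ₀ := by
    rintro (m | m)
    · exact hy m
    · intro g hg
      change M.ρU g (M.φ (f₀ m)) = M.φ (f₀ m)
      rw [← M.hφ, (f₀ m).2 g hg]
  -- the dimensions
  have hgen : ∀ {κ : Type} [Fintype κ] (b : Basis κ k (inv M.ρB Δ₀)),
      (∀ m, z m ∈ Submodule.span R (Set.range fun l => M.η (b l : M.B))) ∧
      (∀ l, M.η (b l : M.B) ∈ Submodule.span R (Set.range z)) ∧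
      LinearIndependent R fun l => M.η (b l : M.B) := by
    intro κ _ b
    refine ⟨fun m => ?_, fun l => hspan _ ?_, hB _ (fun l => (b l : M.B))
      (b.linearIndependent.map' (inv M.ρB Δ₀).subtype (Submodule.ker_subtype _))⟩
    · have h1 := g0.span _ (hzm m)
      refine (Submodule.span_le.2 ?_) h1
      rintro _ ⟨w, hw, rfl⟩
      have h1 : w = ∑ l, b.repr ⟨w, hw⟩ l • (b l : M.B) := by
        have h2 := congrArg Subtype.val (b.sum_repr ⟨w, hw⟩)
        rw [Submodule.coe_sum] at h2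
        exact h2.symm
      rw [h1, map_sum]
      refine Submodule.sum_mem _ fun l _ => ?_
      rw [LinearMap.map_smulₛₗ]
      exact Submodule.smul_mem _ _ (Submodule.subset_span ⟨l, rfl⟩)
    · intro g hg
      rw [← M.hη, (b l).2 g hg]
  have hd0 : P + Q = finrank k (inv M.ρB Δ₀) := by
    obtain ⟨h1, h2, h3⟩ := hgen (finBasis k (inv M.ρB Δ₀))
    have h4 : Submodule.span R (Set.range z) =
        Submodule.span R (Set.range fun l => M.η (finBasis k (inv M.ρB Δ₀) l : M.B)) := by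
      apply le_antisymm
      · refine Submodule.span_le.2 ?_
        rintro _ ⟨m, rfl⟩
        exact h1 m
      · refine Submodule.span_le.2 ?_
        rintro _ ⟨m, rfl⟩
        exact h2 m
    have h5 := finrank_span_eq_card hz
    have h6 := finrank_span_eq_card h3
    rw [h4, h6] at h5
    rw [Fintype.card_fin, Fintype.card_sum, Fintype.card_fin, Fintype.card_fin] at h5
    exact h5.symm
  let b₀ : Basis (Fin P ⊕ Fin Q) k (inv M.ρB Δ₀) :=
    (finBasis k (inv M.ρB Δ₀)).reindex ((finCongr hd0.symm).trans finSumFinEquiv.symm)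
  obtain ⟨hzb0, hbz0, hLI⟩ := hgen b₀
  have hzb : ∀ m, ∃ c : Fin P ⊕ Fin Q → R, ∑ l, c l • M.η (b₀ l) = z m := fun m =>
    (Submodule.mem_span_range_iff_exists_fun R).1 (hzb0 m)
  choose D hD using hzb
  have hbz : ∀ l, ∃ c : Fin P ⊕ Fin Q → R, ∑ m, c m • z m = M.η (b₀ l : M.B) := fun l =>
    (Submodule.mem_span_range_iff_exists_fun R).1 (hbz0 l)
  choose E hE using hbz
  let CC : Matrix (Fin P ⊕ Fin Q) (Fin P ⊕ Fin Q) R := Matrix.of fun l m => D m l
  let EE : Matrix (Fin P ⊕ Fin Q) (Fin P ⊕ Fin Q) R := Matrix.of fun m l => E l m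
  have hCE : CC * EE = 1 := by
    ext l' l
    have h1 : ∑ l', ((CC * EE) l' l) • M.η (b₀ l' : M.B) =
        ∑ l', ((1 : Matrix (Fin P ⊕ Fin Q) (Fin P ⊕ Fin Q) R) l' l) • M.η (b₀ l' : M.B) := by
      have h2 : ∑ l', ((1 : Matrix (Fin P ⊕ Fin Q) (Fin P ⊕ Fin Q) R) l' l) • M.η (b₀ l' : M.B) =
          M.η (b₀ l : M.B) := by
        simp [Matrix.one_apply]
      rw [h2, ← hE l]
      have h3 : ∀ l', ((CC * EE) l' l) • M.η (b₀ l' : M.B) =
          ∑ m, (E l m * D m l') • M.η (b₀ l' : M.B) := by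
        intro l'
        rw [Matrix.mul_apply, Finset.sum_smul]
        refine Finset.sum_congr rfl fun m _ => ?_
        change (D m l' * E l m) • _ = _
        rw [mul_comm]
      rw [Finset.sum_congr rfl fun l' _ => h3 l', Finset.sum_comm]
      refine Finset.sum_congr rfl fun m _ => ?_
      rw [← hD m, Finset.smul_sum]
      refine Finset.sum_congr rfl fun l' _ => ?_
      rw [smul_smul]
    have h4 := Fintype.linearIndependent_iff.1 hLI
      (fun l' => (CC * EE) l' l - (1 : Matrix (Fin P ⊕ Fin Q) (Fin P ⊕ Fin Q) R) l' l) (by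
        simp only [sub_smul, Finset.sum_sub_distrib]
        rw [h1, sub_self]) l'
    exact sub_eq_zero.1 h4
  have hdet : CC.det ≠ 0 := by
    intro h
    have h1 := congrArg Matrix.det hCE
    rw [Matrix.det_mul, h, zero_mul, Matrix.det_one] at h1
    exact zero_ne_one h1
  exact ⟨CC.det, hdet, P, Q, a₀, f₀, b₀, y, CC, fun l => ⟨hy l, hy' l⟩, fun m => (hD m).symm, rfl⟩

theorem one_inst {n T : Type} [Field T] (i₁ i₂ : DecidableEq n) :
    (@One.one (Matrix n n T) (@Matrix.one n T i₁ _ _)) =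
      (@One.one (Matrix n n T) (@Matrix.one n T i₂ _ _)) := by
  cases Subsingleton.elim i₁ i₂
  rfl

/-- extension of scalars for independent rows -/
theorem li_ext {P p' : ℕ} {v : Fin P → Fin p' → k} (h : LinearIndependent k v) (y : Fin P → R)
    (hy : ∀ m, ∑ l, y l * algebraMap k R (v l m) = 0) : y = 0 := by
  let Q : Matrix (Fin p') (Fin P) k := Matrix.of fun m l => v l m
  have hinj : Function.Injective Q.mulVec := Matrix.mulVec_injective_iff.2 h
  obtain ⟨L, hL⟩ := exists_left hinj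
  have h3 : ∀ i j, ((L * Q).map (algebraMap k R)) i j = if i = j then 1 else 0 := by
    intro i j
    have hL' : L * Q = 1 := hL.trans (one_inst _ _)
    rw [hL', Matrix.map_apply, Matrix.one_apply]
    by_cases h : i = j
    · rw [if_pos h, if_pos h, map_one]
    · rw [if_neg h, if_neg h, map_zero]
  have h4 : (Q.map (algebraMap k R)).mulVec y = 0 := by
    funext m
    rw [Matrix.mulVec, dotProduct]
    change ∑ l, algebraMap k R (v l m) * y l = 0
    rw [← hy m]
    exact Finset.sum_congr rfl fun l _ => mul_comm _ _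
  have h5 := congrArg (L.map (algebraMap k R)).mulVec h4
  rw [Matrix.mulVec_mulVec, ← Matrix.map_mul, Matrix.mulVec_zero] at h5
  funext i
  have h6 := congrFun h5 i
  rw [Matrix.mulVec, dotProduct] at h6
  rw [Finset.sum_congr rfl fun j _ => by rw [h3 i j]] at h6
  simpa using h6

/-- a semilinear map on a basis -/
theorem sl_basis {V U : Type} [AddCommGroup V] [Module k V] [AddCommGroup U] [Module R U]
    (θ : V →ₛₗ[algebraMap k R] U) {W : Submodule k V} {p : ℕ} (a : Basis (Fin p) k W) {v : V}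
    (hv : v ∈ W) : θ v = ∑ l, algebraMap k R (a.equivFun ⟨v, hv⟩ l) • θ (a l : V) := by
  have h1 : v = ∑ l, a.equivFun ⟨v, hv⟩ l • (a l : V) := by
    have h2 := congrArg Subtype.val (a.sum_equivFun ⟨v, hv⟩)
    rw [Submodule.coe_sum] at h2
    exact h2.symm
  conv_lhs => rw [h1]
  rw [map_sum]
  exact Finset.sum_congr rfl fun l _ => θ.map_smulₛₗ _ _

/-- **The isomorphism over a subfield.** -/
theorem reg_down [CharZero R] (hB : IndepB M) (hle : Δ' ≤ Δ) (g' : GoodAt M Δ')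
    (gΔ : GoodAt M Δ) {c' : R} (h' : IsReg M Δ' c') : ∃ c, IsReg M Δ c := by
  obtain ⟨h0, p', q', a', f', b', x', C', hx', hC', hd'⟩ := h'
  have hdet : IsUnit C'.det := by
    rw [hd']
    exact isUnit_iff_ne_zero.2 h0
  set z' : Fin p' ⊕ Fin q' → M.U := Sum.elim x' fun l => M.φ (f' l) with hz'
  have hLIb : LinearIndependent R fun l => M.η (b' l : M.B) := hB _ (fun l => (b' l : M.B))
    (b'.linearIndependent.map' (inv M.ρB Δ').subtype (Submodule.ker_subtype _))
  have hLIz' : ∀ y : Fin p' ⊕ Fin q' → R, ∑ m, y m • z' m = 0 → y = 0 := by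
    intro y hy
    have h1 : ∑ l, (C'.mulVec y) l • M.η (b' l : M.B) = 0 := by
      rw [← hy]
      simp only [hC', Finset.smul_sum]
      rw [Finset.sum_comm]
      refine Finset.sum_congr rfl fun l _ => ?_
      unfold Matrix.mulVec dotProduct
      rw [Finset.sum_smul]
      refine Finset.sum_congr rfl fun m _ => ?_
      rw [smul_smul, mul_comm]
    have h2 : C'.mulVec y = 0 := funext ((Fintype.linearIndependent_iff.1 hLIb) _ h1)
    exact Matrix.eq_zero_of_mulVec_eq_zero hdet.ne_zero h2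
  have hspan' : ∀ u ∈ inv M.ρU Δ', u ∈ Submodule.span R (Set.range z') := by
    intro u hu
    have hb : ∀ l, M.η (b' l) ∈ Submodule.span R (Set.range z') := by
      intro l
      have h1 : M.η (b' l) = ∑ m, (C'⁻¹ m l) • z' m := by
        simp only [hC', Finset.smul_sum]
        rw [Finset.sum_comm]
        have h2 : ∀ l', ∑ m, C'⁻¹ m l • C' l' m • M.η (b' l') =
            ((C' * C'⁻¹) l' l) • M.η (b' l') := by
          intro l'
          rw [Matrix.mul_apply, Finset.sum_smul]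
          refine Finset.sum_congr rfl fun m _ => ?_
          rw [smul_smul, mul_comm]
        rw [Finset.sum_congr rfl fun l' _ => h2 l', Matrix.mul_nonsing_inv _ hdet]
        simp [Matrix.one_apply]
      rw [h1]
      exact Submodule.sum_mem _ fun m _ => Submodule.smul_mem _ _ (Submodule.subset_span ⟨m, rfl⟩)
    refine (Submodule.span_le.2 ?_) (g'.span u hu)
    rintro _ ⟨w, hw, rfl⟩
    have h1 : w = ∑ l, b'.repr ⟨w, hw⟩ l • (b' l : M.B) := by
      have h2 := congrArg Subtype.val (b'.sum_repr ⟨w, hw⟩)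
      rw [Submodule.coe_sum] at h2
      exact h2.symm
    rw [h1, map_sum]
    refine Submodule.sum_mem _ fun l _ => ?_
    rw [LinearMap.map_smulₛₗ]
    exact Submodule.smul_mem _ _ (hb l)
  -- bases over the subfield
  have hfV : FiniteDimensional k (inv M.ρV Δ') := Module.Finite.of_basis a'
  have hfΦ : FiniteDimensional k (inv M.ρΦ Δ') := Module.Finite.of_basis f'
  have hfV' : FiniteDimensional k (inv M.ρV Δ) :=
    Submodule.finiteDimensional_of_le (inv_mono M.ρV hle)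
  have hfΦ' : FiniteDimensional k (inv M.ρΦ Δ) :=
    Submodule.finiteDimensional_of_le (inv_mono M.ρΦ hle)
  let a := finBasis k (inv M.ρV Δ)
  let f := finBasis k (inv M.ρΦ Δ)
  have hamem : ∀ l, (a l : M.V) ∈ inv M.ρV Δ' := fun l => inv_mono M.ρV hle (a l).2
  have hfmem : ∀ l, (f l : M.Φ) ∈ inv M.ρΦ Δ' := fun l => inv_mono M.ρΦ hle (f l).2
  let u : Fin (finrank k (inv M.ρV Δ)) → M.U := fun l =>
    ∑ m, algebraMap k R (a'.equivFun ⟨a l, hamem l⟩ m) • x' m
  have hu : ∀ l, u l ∈ inv M.ρU Δ' := fun l =>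
    Submodule.sum_mem _ fun m _ => Submodule.smul_mem _ _ (hx' m).1
  have hu' : ∀ l, M.S.mkQ (u l) = M.r (a l : M.V) := by
    intro l
    rw [sl_basis M.r a' (hamem l), map_sum]
    refine Finset.sum_congr rfl fun m _ => ?_
    rw [map_smul, (hx' m).2]
  let y : Fin (finrank k (inv M.ρV Δ)) → M.U := fun l => avg M.ρU Δ' Δ (u l)
  have hy : ∀ l, y l ∈ inv M.ρU Δ := fun l => avg_mem M.ρU Δ' Δ (hu l)
  have hy' : ∀ l, M.S.mkQ (y l) = M.r (a l : M.V) := by
    intro l
    have h1 := avg_r (Δ' := Δ') (Δ := Δ) (hu' l)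
    rwa [avg_eq M.ρV Δ' Δ (a l).2] at h1
  have hφ0 : ∀ w ∈ inv M.ρΦ Δ, M.φ w ∈ Submodule.span R
      (Set.range (Sum.elim y fun l => M.φ (f l : M.Φ))) := by
    intro w hw
    rw [sl_basis M.φ f hw]
    exact Submodule.sum_mem _ fun l _ => Submodule.smul_mem _ _
      (Submodule.subset_span ⟨Sum.inr l, rfl⟩)
  refine reg_of_basis hB gΔ a f y hy hy' ?_ ?_
  · -- spanning
    intro t ht
    obtain ⟨s, hs⟩ := (Submodule.mem_span_range_iff_exists_fun R).1
      (hspan' t (inv_mono M.ρU hle ht))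
    have h1 : t = ∑ m, s m • avg M.ρU Δ' Δ (z' m) := by
      conv_lhs => rw [← avg_eq M.ρU Δ' Δ ht, ← hs]
      rw [map_sum]
      exact Finset.sum_congr rfl fun m _ => map_smul _ _ _
    rw [h1]
    refine Submodule.sum_mem _ fun m _ => Submodule.smul_mem _ _ ?_
    rcases m with m | m
    · change avg M.ρU Δ' Δ (x' m) ∈ _
      have h2 := avg_r (Δ' := Δ') (Δ := Δ) (hx' m).2
      have h3 : avg M.ρV Δ' Δ (a' m : M.V) ∈ inv M.ρV Δ := avg_mem M.ρV Δ' Δ (a' m).2
      set t' := ∑ l, algebraMap k R (a.equivFun ⟨_, h3⟩ l) • y l with ht'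
      have h4 : t' ∈ inv M.ρU Δ := Submodule.sum_mem _ fun l _ => Submodule.smul_mem _ _ (hy l)
      have h5 : M.S.mkQ t' = M.r (avg M.ρV Δ' Δ (a' m : M.V)) := by
        rw [sl_basis M.r a h3, ht', map_sum]
        refine Finset.sum_congr rfl fun l _ => ?_
        rw [map_smul, hy' l]
      have h6 : avg M.ρU Δ' Δ (x' m) - t' ∈ M.S := by
        have h7 : M.S.mkQ (avg M.ρU Δ' Δ (x' m) - t') = 0 := by rw [map_sub, h2, h5, sub_self]
        rwa [Submodule.mkQ_apply, Submodule.Quotient.mk_eq_zero] at h7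
      have h7 := gΔ.deR _ (Submodule.sub_mem _ (avg_mem M.ρU Δ' Δ (hx' m).1) h4) h6
      have h8 : avg M.ρU Δ' Δ (x' m) - t' ∈ Submodule.span R
          (Set.range (Sum.elim y fun l => M.φ (f l : M.Φ))) := by
        refine (Submodule.span_le.2 ?_) h7
        rintro _ ⟨w, hw, rfl⟩
        exact hφ0 w hw
      have h9 : t' ∈ Submodule.span R (Set.range (Sum.elim y fun l => M.φ (f l : M.Φ))) :=
        Submodule.sum_mem _ fun l _ => Submodule.smul_mem _ _
          (Submodule.subset_span ⟨Sum.inl l, rfl⟩)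
      have h10 : avg M.ρU Δ' Δ (x' m) = (avg M.ρU Δ' Δ (x' m) - t') + t' := by abel
      rw [h10]
      exact Submodule.add_mem _ h8 h9
    · change avg M.ρU Δ' Δ (M.φ (f' m : M.Φ)) ∈ _
      rw [← avg_map M.hφ]
      exact hφ0 _ (avg_mem M.ρΦ Δ' Δ (f' m).2)
  · -- independence
    have hdiff : ∀ l, ∃ s : Fin q' → R, ∑ m, s m • M.φ (f' m : M.Φ) = y l - u l := by
      intro l
      have h1 : y l - u l ∈ M.S := by
        have h2 : M.S.mkQ (y l - u l) = 0 := by rw [map_sub, hy', hu', sub_self]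
        rwa [Submodule.mkQ_apply, Submodule.Quotient.mk_eq_zero] at h2
      have h2 := g'.deR _ (Submodule.sub_mem _ (inv_mono M.ρU hle (hy l)) (hu l)) h1
      have h3 : y l - u l ∈ Submodule.span R (Set.range fun m => M.φ (f' m : M.Φ)) := by
        refine (Submodule.span_le.2 ?_) h2
        rintro _ ⟨w, hw, rfl⟩
        rw [sl_basis M.φ f' hw]
        exact Submodule.sum_mem _ fun l _ => Submodule.smul_mem _ _
          (Submodule.subset_span ⟨l, rfl⟩)
      exact (Submodule.mem_span_range_iff_exists_fun R).1 h3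
    choose s hs using hdiff
    have hα : LinearIndependent k fun l => a'.equivFun ⟨a l, hamem l⟩ := by
      have h1 : LinearIndependent k (fun l => (⟨a l, hamem l⟩ : inv M.ρV Δ')) :=
        LinearIndependent.of_comp (inv M.ρV Δ').subtype
          (a.linearIndependent.map' (inv M.ρV Δ).subtype (Submodule.ker_subtype _))
      exact h1.map' a'.equivFun.toLinearMap (LinearEquiv.ker _)
    have hβ : LinearIndependent k fun l => f'.equivFun ⟨f l, hfmem l⟩ := by
      have h1 : LinearIndependent k (fun l => (⟨f l, hfmem l⟩ : inv M.ρΦ Δ')) :=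
        LinearIndependent.of_comp (inv M.ρΦ Δ').subtype
          (f.linearIndependent.map' (inv M.ρΦ Δ).subtype (Submodule.ker_subtype _))
      exact h1.map' f'.equivFun.toLinearMap (LinearEquiv.ker _)
    rw [Fintype.linearIndependent_iff]
    intro w hw
    rw [Fintype.sum_sum_type] at hw
    let w' : Fin p' ⊕ Fin q' → R := Sum.elim
      (fun m => ∑ l, w (Sum.inl l) * algebraMap k R (a'.equivFun ⟨a l, hamem l⟩ m))
      (fun m => ∑ l, w (Sum.inl l) * s l m +
        ∑ l, w (Sum.inr l) * algebraMap k R (f'.equivFun ⟨f l, hfmem l⟩ m))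
    have h1 : ∑ m, w' m • z' m = 0 := by
      rw [Fintype.sum_sum_type, ← hw]
      have e1 : ∑ l, w (Sum.inl l) • Sum.elim y (fun l => M.φ (f l : M.Φ)) (Sum.inl l) =
          ∑ m, (∑ l, w (Sum.inl l) * algebraMap k R (a'.equivFun ⟨a l, hamem l⟩ m)) • x' m +
          ∑ m, (∑ l, w (Sum.inl l) * s l m) • M.φ (f' m : M.Φ) := by
        have e2 : ∀ l, Sum.elim y (fun l => M.φ (f l : M.Φ)) (Sum.inl l) =
            ∑ m, algebraMap k R (a'.equivFun ⟨a l, hamem l⟩ m) • x' m +
              ∑ m, s l m • M.φ (f' m : M.Φ) := by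
          intro l
          rw [hs l]
          change y l = u l + (y l - u l)
          abel
        rw [Finset.sum_congr rfl fun l _ => by rw [e2 l]]
        simp only [smul_add, Finset.sum_add_distrib, Finset.smul_sum, Finset.sum_smul, smul_smul]
        congr 1
        · exact Finset.sum_comm
        · exact Finset.sum_comm
      have e3 : ∑ l, w (Sum.inr l) • Sum.elim y (fun l => M.φ (f l : M.Φ)) (Sum.inr l) =
          ∑ m, (∑ l, w (Sum.inr l) * algebraMap k R (f'.equivFun ⟨f l, hfmem l⟩ m)) •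
            M.φ (f' m : M.Φ) := by
        have e4 : ∀ l, Sum.elim y (fun l => M.φ (f l : M.Φ)) (Sum.inr l) =
            ∑ m, algebraMap k R (f'.equivFun ⟨f l, hfmem l⟩ m) • M.φ (f' m : M.Φ) := fun l =>
          sl_basis M.φ f' (hfmem l)
        rw [Finset.sum_congr rfl fun l _ => by rw [e4 l]]
        simp only [Finset.smul_sum, Finset.sum_smul, smul_smul]
        exact Finset.sum_comm
      rw [e1, e3, add_assoc]
      congr 1
      rw [← Finset.sum_add_distrib]
      exact Finset.sum_congr rfl fun m _ => add_smul _ _ _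
    have h2 := hLIz' w' h1
    have h3 : (fun l => w (Sum.inl l)) = 0 :=
      li_ext hα _ fun m => congrFun h2 (Sum.inl m)
    have h4 : (fun l => w (Sum.inr l)) = 0 := by
      refine li_ext hβ _ fun m => ?_
      have h5 := congrFun h2 (Sum.inr m)
      change ∑ l, w (Sum.inl l) * s l m + _ = 0 at h5
      have h6 : ∑ l, w (Sum.inl l) * s l m = 0 :=
        Finset.sum_eq_zero fun l _ => by rw [show w (Sum.inl l) = 0 from congrFun h3 l, zero_mul]
      rwa [h6, zero_add] at h5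
    rintro (l | l)
    · exact congrFun h3 l
    · exact congrFun h4 l

end

end Pool.Agent.Q5.RY
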